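import Mathlib
import Pool.Agent.Lib.Kneser

/-!
# Zero-`h`-sum-free sets in cyclic groups: the upper and lower bounds

Main facts: `P_all` (for every `c`, a set `A ⊆ ℤ/n` with `c ∉ hA` obeys the bound coming from
some divisor of `n`) and `lower` (the interval construction).
-/

open Finset Pointwise
open Pool.Agent.Lib.Kneser

namespace Pool.Agent.Lib.MP_7a9645_co

section general
variable {G : Type*} [AddCommGroup G] [DecidableEq G]

/-- The `k`-fold sumset. -/
def hs (A : Finset G) : ℕ → Finset G
  | 0 => {0}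
  | k + 1 => hs A k + A

@[simp] lemma hs_zero (A : Finset G) : hs A 0 = {0} := rfl
lemma hs_succ (A : Finset G) (k : ℕ) : hs A (k + 1) = hs A k + A := rfl

lemma hs_nonempty {A : Finset G} (hA : A.Nonempty) (k : ℕ) : (hs A k).Nonempty := by
  induction k with
  | zero => simp
  | succ k ih => rw [hs_succ]; exact ih.add hA

lemma hs_add (A : Finset G) (j k : ℕ) : hs A (j + k) = hs A j + hs A k := by
  induction k with
  | zero =>
    ext x
    rw [hs_zero, add_zero, Finset.mem_add]
    constructor
    · intro hx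
      exact ⟨x, hx, 0, by simp, by simp⟩
    · rintro ⟨y, hy, z, hz, rfl⟩
      rw [Finset.mem_singleton] at hz
      rw [hz, add_zero]
      exact hy
  | succ k ih => rw [← add_assoc, hs_succ, ih, hs_succ, add_assoc]

lemma hs_hs (A : Finset G) (u g : ℕ) : hs (hs A u) g = hs A (u * g) := by
  induction g with
  | zero => simp
  | succ g ih => rw [hs_succ, ih, mul_add, mul_one, hs_add]

lemma hs_vadd (x : G) (A : Finset G) (k : ℕ) : hs (x +ᵥ A) k = (k • x) +ᵥ hs A k := by
  induction k with
  | zero => simp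
  | succ k ih =>
    rw [hs_succ, hs_succ, ih]
    ext y
    simp only [Finset.mem_add, Finset.mem_vadd_finset]
    constructor
    · rintro ⟨_, ⟨a, ha, rfl⟩, _, ⟨b, hb, rfl⟩, rfl⟩
      refine ⟨a + b, ⟨a, ha, b, hb, rfl⟩, ?_⟩
      simp only [vadd_eq_add, add_smul, one_smul]
      abel
    · rintro ⟨_, ⟨a, ha, b, hb, rfl⟩, rfl⟩
      refine ⟨_, ⟨a, ha, rfl⟩, _, ⟨b, hb, rfl⟩, ?_⟩
      simp only [vadd_eq_add, add_smul, one_smul]
      abel

lemma sum_mem_hs {A : Finset G} (h : ℕ) (f : Fin h → G) (hf : ∀ i, f i ∈ A) :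
    ∑ i, f i ∈ hs A h := by
  induction h with
  | zero => simp
  | succ h ih =>
    rw [Fin.sum_univ_castSucc, hs_succ]
    exact Finset.add_mem_add (ih _ (fun i => hf _)) (hf _)

lemma exists_of_mem_hs {A : Finset G} (h : ℕ) {x : G} (hx : x ∈ hs A h) :
    ∃ f : Fin h → G, (∀ i, f i ∈ A) ∧ ∑ i, f i = x := by
  induction h generalizing x with
  | zero =>
    rw [hs_zero, Finset.mem_singleton] at hx
    exact ⟨fun i => i.elim0, fun i => i.elim0, by simp [hx]⟩
  | succ h ih =>
    rw [hs_succ, Finset.mem_add] at hx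
    obtain ⟨y, hy, z, hz, rfl⟩ := hx
    obtain ⟨f, hf, rfl⟩ := ih hy
    refine ⟨Fin.snoc (α := fun _ => G) f z, ?_, ?_⟩
    · intro i
      refine Fin.lastCases ?_ (fun j => ?_) i
      · simpa using hz
      · simpa using hf j
    · rw [Fin.sum_univ_castSucc]
      simp

/-- if the top sumset is aperiodic then all the lower ones grow well. -/
lemma card_hs {A : Finset G} (hA : A.Nonempty) {h : ℕ} (hst : ∀ g ∈ stab (hs A h), g = 0)
    (k : ℕ) (hk : k ≤ h) : k * (A.card - 1) + 1 ≤ (hs A k).card := by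
  induction k with
  | zero => simp
  | succ k ih =>
    have ih' := ih (by omega)
    have hkn := kneser_weak (hs_nonempty hA k) hA
    have hs1 : (stab (hs A k + A)).card ≤ 1 := by
      rw [Finset.card_le_one_iff]
      have key : ∀ g ∈ stab (hs A k + A), g = 0 := by
        intro g hg
        apply hst
        obtain ⟨j, rfl⟩ := Nat.exists_eq_add_of_le hk
        rw [mem_stab_iff_subset (hs_nonempty hA _)]
        intro s hs'
        rw [hs_add, Finset.mem_add] at hs' ⊢
        obtain ⟨a, ha, b, hb, rfl⟩ := hs'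
        refine ⟨g + a, ?_, b, hb, by abel⟩
        rw [hs_succ] at ha ⊢
        exact (mem_stab_iff_subset ((hs_nonempty hA k).add hA)).1 hg a ha
      intro a b ha hb
      rw [key a ha, key b hb]
    rw [hs_succ]
    have hApos := Finset.card_pos.2 hA
    have : (k + 1) * (A.card - 1) = k * (A.card - 1) + (A.card - 1) := by ring
    omega

end general

/-- `Good n h c k`: the bound coming from some divisor `D` of `n`. -/
def Good (n h : ℕ) (c : ℤ) (k : ℕ) : Prop :=
  ∃ D L : ℕ, D ∣ n ∧ 1 ≤ L ∧ h * (L - 1) + 1 + Int.gcd c (Nat.gcd D h) ≤ D ∧ k * D ≤ L * n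

/-- The general upper bound statement for `ℤ/n`. -/
def P (n : ℕ) : Prop := ∀ (h : ℕ) (c : ℤ) (A : Finset (ZMod n)), 1 ≤ h → A.Nonempty →
  (c : ZMod n) ∉ hs A h → Good n h c A.card

/-- Passing to a quotient. -/
lemma step_quot {p N : ℕ} (hp : 0 < p) (hN : 0 < N) (hP : P N) (h : ℕ) (c : ℤ)
    (A : Finset (ZMod (p * N))) (h1 : 1 ≤ h) (hA : A.Nonempty)
    (hc : (c : ZMod (p * N)) ∉ hs A h) (hst : ((N : ℕ) : ZMod (p * N)) ∈ stab (hs A h)) :
    Good (p * N) h c A.card := by
  have : NeZero N := ⟨by omega⟩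
  have : NeZero (p * N) := ⟨by positivity⟩
  set φ := ZMod.castHom (Dvd.intro_left p rfl : N ∣ p * N) (ZMod N) with hφ
  have hval : ∀ x : ZMod (p * N), φ x = ((x.val : ℕ) : ZMod N) := by
    intro x
    conv_lhs => rw [← ZMod.natCast_zmod_val x]
    rw [map_natCast]
  have himg : ∀ k, hs (A.image φ) k = (hs A k).image φ := by
    intro k
    induction k with
    | zero => simp
    | succ k ih => rw [hs_succ, hs_succ, ih, Finset.image_add]
  have hc' : (c : ZMod N) ∉ hs (A.image φ) h := by
    rw [himg, Finset.mem_image]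
    rintro ⟨x, hx, hxc⟩
    apply hc
    have h0 : φ (x - (c : ZMod (p * N))) = 0 := by
      rw [map_sub, hxc, map_intCast, sub_self]
    rw [hval, ZMod.natCast_eq_zero_iff] at h0
    obtain ⟨j, hj⟩ := h0
    have h2 : x - (c : ZMod (p * N)) = (j : ℕ) • ((N : ℕ) : ZMod (p * N)) := by
      rw [← ZMod.natCast_zmod_val (x - (c : ZMod (p * N))), hj, nsmul_eq_mul]
      push_cast
      ring
    have h3 : ∀ j : ℕ, j • ((N : ℕ) : ZMod (p * N)) ∈ stab (hs A h) := by
      intro j
      induction j with
      | zero => simpa using zero_mem_stab (hs_nonempty hA h)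
      | succ j ih => rw [succ_nsmul]; exact add_mem_stab (hs_nonempty hA h) ih hst
    have h4 : (c : ZMod (p * N)) = x + -((j : ℕ) • ((N : ℕ) : ZMod (p * N))) := by
      rw [← h2]; ring
    rw [h4, add_mem_iff (hs_nonempty hA h) (neg_mem_stab (hs_nonempty hA h) (h3 j))]
    exact hx
  obtain ⟨D, L, hD, hL, hDL, hk⟩ := hP h c (A.image φ) h1 (hA.image φ) hc'
  refine ⟨D, L, hD.trans (Dvd.intro_left p rfl), hL, hDL, ?_⟩
  have hcard : A.card ≤ p * (A.image φ).card := by
    apply Finset.card_le_mul_card_image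
    intro a _
    have : (Finset.range p).card = p := Finset.card_range p
    conv_rhs => rw [← this]
    refine Finset.card_le_card_of_injOn (fun x => x.val / N) ?_ ?_
    · intro x _
      rw [Finset.mem_coe, Finset.mem_range]
      have hx := ZMod.val_lt x
      exact Nat.div_lt_of_lt_mul (lt_of_lt_of_eq hx (mul_comm p N))
    · intro x hx y hy hxy
      rw [Finset.mem_coe, Finset.mem_filter] at hx hy
      have e : φ x = φ y := hx.2.trans hy.2.symm
      rw [hval, hval, ZMod.natCast_eq_natCast_iff'] at e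
      have hxy' : x.val / N = y.val / N := hxy
      have : x.val = y.val := by
        rw [← Nat.div_add_mod x.val N, ← Nat.div_add_mod y.val N, e, hxy']
      exact ZMod.val_injective _ this
  calc A.card * D ≤ (p * (A.image φ).card) * D := Nat.mul_le_mul_right _ hcard
    _ = p * ((A.image φ).card * D) := by ring
    _ ≤ p * (L * N) := Nat.mul_le_mul_left _ hk
    _ = L * (p * N) := by ring

/-- multiplication by `q` as a homomorphism `ZMod N → ZMod (q * N)` -/
def psi (q N : ℕ) : ZMod N →+ ZMod (q * N) :=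
  ZMod.lift N ⟨zmultiplesHom (ZMod (q * N)) ((q : ℕ) : ZMod (q * N)), by
    have : ((N : ℤ) • ((q : ℕ) : ZMod (q * N))) = ((q * N : ℕ) : ZMod (q * N)) := by
      rw [zsmul_eq_mul]; push_cast; ring
    rw [zmultiplesHom_apply, this, ZMod.natCast_self]⟩

lemma psi_intCast (q N : ℕ) (c : ℤ) : psi q N (c : ZMod N) = ((q * c : ℤ) : ZMod (q * N)) := by
  unfold psi
  rw [ZMod.lift_coe]
  simp [mul_comm]

lemma psi_natCast (q N : ℕ) (c : ℕ) : psi q N (c : ZMod N) = ((q * c : ℕ) : ZMod (q * N)) := by
  have := psi_intCast q N (c : ℤ)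
  push_cast at this ⊢
  exact this

/-- the slices of a set modulo `q`. -/
noncomputable def slice (q N : ℕ) [NeZero N] (S : Finset (ZMod (q * N))) (i : ℕ) :
    Finset (ZMod N) :=
  Finset.univ.filter (fun y => ((i : ℕ) : ZMod (q * N)) + psi q N y ∈ S)

lemma card_le_sum_slice (q N : ℕ) (hq : 0 < q) [NeZero N] (S : Finset (ZMod (q * N))) :
    S.card ≤ ∑ i ∈ Finset.range q, (slice q N S i).card := by
  have : NeZero (q * N) := ⟨Nat.mul_ne_zero (by omega) (NeZero.ne N)⟩
  rw [Finset.card_eq_sum_card_fiberwise (f := fun x : ZMod (q * N) => x.val % q)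
    (t := Finset.range q)]
  · apply Finset.sum_le_sum
    intro i _
    have key : ∀ x : ZMod (q * N), x.val % q = i →
        ((i : ℕ) : ZMod (q * N)) + psi q N ((x.val / q : ℕ) : ZMod N) = x := by
      intro x hx
      rw [psi_natCast, ← Nat.cast_add]
      conv_rhs => rw [← ZMod.natCast_zmod_val x, ← Nat.mod_add_div x.val q, hx]
    refine Finset.card_le_card_of_injOn (fun x => ((x.val / q : ℕ) : ZMod N)) ?_ ?_
    · intro x hx
      rw [Finset.mem_coe, Finset.mem_filter] at hx
      rw [Finset.mem_coe, slice, Finset.mem_filter]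
      refine ⟨Finset.mem_univ _, ?_⟩
      rw [key x hx.2]
      exact hx.1
    · intro x hx y hy hxy
      rw [Finset.mem_coe, Finset.mem_filter] at hx hy
      rw [← key x hx.2, ← key y hy.2]
      have : ((x.val / q : ℕ) : ZMod N) = ((y.val / q : ℕ) : ZMod N) := hxy
      rw [this]
  · intro x _
    rw [Finset.mem_coe, Finset.mem_range]
    exact Nat.mod_lt _ hq

lemma hs_slice (q N : ℕ) [NeZero N] (S : Finset (ZMod (q * N))) (i g : ℕ) {y : ZMod N}
    (hy : y ∈ hs (slice q N S i) g) :
    ((g * i : ℕ) : ZMod (q * N)) + psi q N y ∈ hs S g := by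
  induction g generalizing y with
  | zero =>
    rw [hs_zero, Finset.mem_singleton] at hy
    simp [hy]
  | succ g ih =>
    rw [hs_succ, Finset.mem_add] at hy
    obtain ⟨a, ha, b, hb, rfl⟩ := hy
    rw [hs_succ, Finset.mem_add]
    rw [slice, Finset.mem_filter] at hb
    refine ⟨_, ih ha, _, hb.2, ?_⟩
    rw [map_add]
    push_cast
    ring


/-- arithmetic for both cases: `D ≤ s m` -/
lemma arith_D_le {g m N D E s t : ℕ} (hg : 0 < g) (hN : 0 < N) (hNg : N = g * m)
    (hDE : N = D * E) (hD : D = s + g * t) (hs : 0 < s) : D ≤ s * m := by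
  have hE : 0 < E := by
    rcases Nat.eq_zero_or_pos E with h | h
    · rw [h] at hDE; omega
    · exact h
  have h1 : g ∣ s * E := by
    have h2 : g ∣ D * E := by rw [← hDE, hNg]; exact Dvd.intro _ rfl
    rw [hD, add_mul] at h2
    have h3 : g ∣ g * t * E := by rw [mul_assoc]; exact Dvd.intro _ rfl
    exact (Nat.dvd_add_left h3).1 h2
  have h4 : g ≤ s * E := Nat.le_of_dvd (by positivity) h1
  have h5 : g * D ≤ g * (s * m) := by
    calc g * D ≤ (s * E) * D := Nat.mul_le_mul_right _ h4
      _ = s * (D * E) := by ring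
      _ = s * (g * m) := by rw [← hDE, hNg]
      _ = g * (s * m) := by ring
  exact Nat.le_of_mul_le_mul_left h5 hg

lemma arith_L_le {g L t : ℕ} (hL : 1 ≤ L) (h : g * (L - 1) + 1 ≤ g * t) : L ≤ t := by
  have h1 : g * (L - 1) < g * t := by omega
  have h2 : L - 1 < t := lt_of_mul_lt_mul_left h1 (Nat.zero_le g)
  omega

lemma sum_aux (f : ℕ → ℕ) (q m1 : ℕ) (hq : 0 < q) (hb : ∀ i, f i ≤ m1) (h0 : f 0 + 1 ≤ m1) :
    ∑ i ∈ Finset.range q, f i + 1 ≤ q * m1 := by
  obtain ⟨q', rfl⟩ : ∃ q', q = q' + 1 := ⟨q - 1, by omega⟩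
  rw [Finset.sum_range_succ']
  have h1 : ∑ i ∈ Finset.range q', f (i + 1) ≤ ∑ _i ∈ Finset.range q', m1 :=
    Finset.sum_le_sum (fun i _ => hb _)
  rw [Finset.sum_const, Finset.card_range, smul_eq_mul] at h1
  rw [Nat.succ_mul]
  omega

lemma gcd_helper {x : ℤ} {s : ℕ} (h : (s : ℤ) ∣ x) : Int.gcd x (s : ℤ) = s := by
  have h1 := (Int.gcd_eq_right_iff_dvd (Int.natCast_nonneg s)).2 h
  exact_mod_cast h1

/-- The divisible case: if `g ∣ n`, every divisor `D` of `n` is `≡ gcd(D,g) (mod g)`, then a set
`S` with `0 ∉ gS` has at most `n/g - 1` elements. -/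
lemma claimQ {n g : ℕ} (hn : 0 < n) (hg : 2 ≤ g) (hgn : g ∣ n)
    (hstar : ∀ D, D ∣ n → ∃ t, D = Nat.gcd D g + g * t)
    (ih : ∀ N, 0 < N → N < n → P N) (S : Finset (ZMod n))
    (h0 : (0 : ZMod n) ∉ hs S g) : g * (S.card + 1) ≤ n := by
  obtain ⟨m, hm⟩ := hgn
  have hmpos : 0 < m := by
    rcases Nat.eq_zero_or_pos m with h | h
    · rw [h] at hm; omega
    · exact h
  set q := g.minFac with hq
  have hqp : q.Prime := Nat.minFac_prime (by omega)
  obtain ⟨g1, hg1⟩ : q ∣ g := Nat.minFac_dvd g
  have hg1pos : 0 < g1 := by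
    rcases Nat.eq_zero_or_pos g1 with h | h
    · rw [h] at hg1; omega
    · exact h
  obtain ⟨N, hN⟩ : ∃ N, n = q * N := ⟨g1 * m, by rw [hm, hg1]; ring⟩
  have hNpos : 0 < N := by
    rcases Nat.eq_zero_or_pos N with h | h
    · rw [h] at hN; omega
    · exact h
  have hNval : N = g1 * m := by
    have : q * N = q * (g1 * m) := by rw [← hN, hm, hg1]; ring
    exact Nat.eq_of_mul_eq_mul_left hqp.pos this
  have hNlt : N < n := by
    rw [hN]
    have := hqp.two_le
    nlinarith
  have hPN := ih N hNpos hNlt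
  clear ih
  subst hN
  have : NeZero N := ⟨by omega⟩
  -- each slice avoids `c_i`
  have hslice : ∀ i, (((-(g1 * i : ℤ) : ℤ)) : ZMod N) ∉ hs (slice q N S i) g := by
    intro i hi
    apply h0
    have h1 := hs_slice q N S i g hi
    rw [psi_intCast] at h1
    have h2 : ((g * i : ℕ) : ZMod (q * N)) + ((q * (-(g1 * i : ℤ)) : ℤ) : ZMod (q * N)) = 0 := by
      rw [hg1]; push_cast; ring
    rwa [h2] at h1
  have hgood : ∀ i, (slice q N S i).Nonempty →
      Good N g (-(g1 * i : ℤ)) (slice q N S i).card := by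
    intro i hne
    exact hPN g _ _ (by omega) hne (hslice i)
  have hsum := card_le_sum_slice q N hqp.pos S
  by_cases hqm : q ∣ m
  · -- Case II
    obtain ⟨m1, hm1⟩ := hqm
    have hm1pos : 0 < m1 := by
      rcases Nat.eq_zero_or_pos m1 with h | h
      · rw [h] at hm1; omega
      · exact h
    have hNg : N = g * m1 := by rw [hNval, hm1, hg1]; ring
    -- every prime dividing `g` is `q`
    have hprime : ∀ r, r.Prime → r ∣ g → r = q := by
      intro r hr hrg
      by_contra hne
      have hqr : q ≤ r := Nat.minFac_le_of_dvd hr.two_le hrg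
      have hgne : g ≠ 0 := by omega
      set a := g.factorization q with ha
      have hqa : q ^ a ∣ g := Nat.ordProj_dvd g q
      have hD : q ^ (a + 1) ∣ q * N := by
        rw [pow_succ, mul_comm]
        apply Nat.mul_dvd_mul_left
        rw [hNg]
        exact hqa.trans (Dvd.intro _ rfl)
      obtain ⟨t, ht⟩ := hstar _ hD
      have hgcd : Nat.gcd (q ^ (a + 1)) g = q ^ a := by
        have h1 : Nat.gcd (q ^ (a + 1)) g ∣ q ^ (a + 1) := Nat.gcd_dvd_left _ _
        obtain ⟨b, hb, hb'⟩ := (Nat.dvd_prime_pow hqp).1 h1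
        have h2 : q ^ b ∣ g := by rw [← hb']; exact Nat.gcd_dvd_right _ _
        have h3 : b ≤ a := (hqp.pow_dvd_iff_le_factorization hgne).1 h2
        have h4 : q ^ a ∣ Nat.gcd (q ^ (a + 1)) g :=
          Nat.dvd_gcd (pow_dvd_pow q (by omega)) hqa
        apply Nat.dvd_antisymm _ h4
        rw [hb']
        exact pow_dvd_pow q h3
      rw [hgcd] at ht
      have h5 : q ^ a * (q - 1) = g * t := by
        have hq1 : (q - 1) + 1 = q := by have := hqp.two_le; omega
        have : q ^ (a + 1) = q ^ a * (q - 1) + q ^ a := by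
          calc q ^ (a + 1) = q ^ a * q := pow_succ _ _
            _ = q ^ a * ((q - 1) + 1) := by rw [hq1]
            _ = q ^ a * (q - 1) + q ^ a := by ring
        omega
      have h6 : r ∣ q ^ a * (q - 1) := by rw [h5]; exact hrg.trans (Dvd.intro _ rfl)
      rcases (Nat.Prime.dvd_mul hr).1 h6 with h7 | h7
      · have := hr.dvd_of_dvd_pow h7
        exact hne ((Nat.prime_dvd_prime_iff_eq hr hqp).1 this)
      · have h8 := Nat.le_of_dvd (by have := hqp.two_le; omega) h7
        have := hqp.two_le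
        omega
    have hbound : ∀ i, (slice q N S i).card ≤ m1 := by
      intro i
      rcases (slice q N S i).eq_empty_or_nonempty with he | hne
      · rw [he]; simp
      obtain ⟨D, L, hD, hL, hDL, hk⟩ := hgood i hne
      have hDpos : 0 < D := Nat.pos_of_dvd_of_pos hD hNpos
      obtain ⟨t, ht⟩ := hstar D (hD.trans (Dvd.intro_left _ rfl))
      set s := Nat.gcd D g with hs'
      have hsg : s ∣ g := Nat.gcd_dvd_right _ _
      have hgL : g * L ≤ D := by
        by_cases hsg1 : s = g
        · -- D is a multiple of g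
          have h1 : D = g * (t + 1) := by rw [ht, hsg1]; ring
          have h2 : g * (L - 1) + 1 ≤ g * (t + 1) := by omega
          have h3 := arith_L_le hL h2
          rw [h1]
          exact Nat.mul_le_mul_left _ h3
        · have h1 : s ∣ g1 := by
            obtain ⟨w, hw⟩ := hsg
            have hw1 : w ≠ 1 := by
              intro h
              apply hsg1
              rw [hw, h, mul_one]
            have hwp := Nat.minFac_prime hw1
            have hwg : w.minFac ∣ g := by
              rw [hw]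
              exact (Nat.minFac_dvd w).trans (Dvd.intro_left _ rfl)
            have hwq := hprime _ hwp hwg
            obtain ⟨w', hw'⟩ := Nat.minFac_dvd w
            rw [hwq] at hw'
            have : q * g1 = q * (s * w') := by rw [← hg1, hw, hw']; ring
            have := Nat.eq_of_mul_eq_mul_left hqp.pos this
            rw [this]
            exact Dvd.intro _ rfl
          have h2 : Int.gcd (-(g1 * i : ℤ)) ((s : ℕ) : ℤ) = s := by
            apply gcd_helper
            rw [dvd_neg]
            exact (Int.natCast_dvd_natCast.2 h1).trans (Dvd.intro _ rfl)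
          rw [h2] at hDL
          have h3 : g * (L - 1) + 1 ≤ g * t := by omega
          have h4 := arith_L_le hL h3
          calc g * L ≤ g * t := Nat.mul_le_mul_left _ h4
            _ ≤ D := by omega
      have h1 : (g * D) * (slice q N S i).card ≤ (g * D) * m1 := by
        calc (g * D) * (slice q N S i).card = g * ((slice q N S i).card * D) := by ring
          _ ≤ g * (L * N) := Nat.mul_le_mul_left _ hk
          _ = (g * L) * N := by ring
          _ ≤ D * N := Nat.mul_le_mul_right _ hgL
          _ = D * (g * m1) := by rw [hNg]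
          _ = (g * D) * m1 := by ring
      exact Nat.le_of_mul_le_mul_left h1 (by positivity)
    have hbound0 : (slice q N S 0).card + 1 ≤ m1 := by
      rcases (slice q N S 0).eq_empty_or_nonempty with he | hne
      · rw [he, Finset.card_empty]; omega
      obtain ⟨D, L, hD, hL, hDL, hk⟩ := hgood 0 hne
      have hDpos : 0 < D := Nat.pos_of_dvd_of_pos hD hNpos
      obtain ⟨t, ht⟩ := hstar D (hD.trans (Dvd.intro_left _ rfl))
      set s := Nat.gcd D g with hs'
      have hspos : 0 < s := Nat.gcd_pos_of_pos_left _ hDpos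
      have h2 : Int.gcd (-(g1 * (0 : ℕ) : ℤ)) ((s : ℕ) : ℤ) = s := by
        apply gcd_helper
        simp
      rw [h2] at hDL
      have h3 : g * (L - 1) + 1 ≤ g * t := by omega
      have h4 := arith_L_le hL h3
      obtain ⟨E, hE⟩ := hD
      have h5 := arith_D_le (by omega : 0 < g) hNpos hNg hE ht hspos
      -- g * k * D ≤ (D - s) * g * m1
      have h6 : g * ((slice q N S 0).card * D) + g * (s * m1) ≤ g * (D * m1) := by
        calc g * ((slice q N S 0).card * D) + g * (s * m1)
            ≤ g * (L * N) + g * (s * m1) := by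
              have := Nat.mul_le_mul_left g hk
              omega
          _ ≤ g * (t * N) + g * (s * m1) := by
              have := Nat.mul_le_mul_left g (Nat.mul_le_mul_right N h4)
              omega
          _ = g * ((s + g * t) * m1) := by rw [hNg]; ring
          _ = g * (D * m1) := by rw [← ht]
      have h7 : (slice q N S 0).card * D + s * m1 ≤ D * m1 := by
        have h8 : g * ((slice q N S 0).card * D + s * m1) ≤ g * (D * m1) := by
          rw [mul_add]; exact h6
        exact Nat.le_of_mul_le_mul_left h8 (by omega)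
      have h9 : D * ((slice q N S 0).card + 1) ≤ D * m1 := by
        calc D * ((slice q N S 0).card + 1) = (slice q N S 0).card * D + D := by ring
          _ ≤ (slice q N S 0).card * D + s * m1 := by omega
          _ ≤ D * m1 := h7
      exact Nat.le_of_mul_le_mul_left h9 hDpos
    -- total
    have htot := sum_aux (fun i => (slice q N S i).card) q m1 hqp.pos hbound hbound0
    have h1 : S.card + 1 ≤ q * m1 := by
      have h2 : ∑ i ∈ Finset.range q, (slice q N S i).card + 1 ≤ q * m1 := htot
      omega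
    calc g * (S.card + 1) ≤ g * m := Nat.mul_le_mul_left _ (by rw [hm1]; exact h1)
      _ = q * N := hm.symm
  · -- Case I
    have hcop : Nat.Coprime q m := (Nat.Prime.coprime_iff_not_dvd hqp).2 hqm
    have hbound : ∀ i, q * (slice q N S i).card + 1 ≤ m := by
      intro i
      rcases (slice q N S i).eq_empty_or_nonempty with he | hne
      · rw [he, Finset.card_empty]; omega
      obtain ⟨D, L, hD, hL, hDL, hk⟩ := hgood i hne
      have hDpos : 0 < D := Nat.pos_of_dvd_of_pos hD hNpos
      obtain ⟨t, ht⟩ := hstar D (hD.trans (Dvd.intro_left _ rfl))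
      set s := Nat.gcd D g with hs'
      have hspos : 0 < s := Nat.gcd_pos_of_pos_left _ hDpos
      have hsg : s ∣ g := Nat.gcd_dvd_right _ _
      have hsD : s ∣ D := Nat.gcd_dvd_left _ _
      have h1 : s ∣ g1 := by
        have h2 : s ∣ q * g1 := by rw [← hg1]; exact hsg
        have h3 : s ∣ m * g1 := by
          have : m * g1 = N := by rw [hNval]; ring
          rw [this]; exact hsD.trans hD
        have h4 : s ∣ Nat.gcd (q * g1) (m * g1) := Nat.dvd_gcd h2 h3
        rw [Nat.gcd_mul_right, hcop.gcd_eq_one, one_mul] at h4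
        exact h4
      have h2 : Int.gcd (-(g1 * i : ℤ)) ((s : ℕ) : ℤ) = s := by
        apply gcd_helper
        rw [dvd_neg]
        exact (Int.natCast_dvd_natCast.2 h1).trans (Dvd.intro _ rfl)
      rw [h2] at hDL
      have h3 : g * (L - 1) + 1 ≤ g * t := by omega
      have h4 := arith_L_le hL h3
      obtain ⟨E, hE⟩ := hD
      have hE' : q * N = D * (q * E) := by rw [hE]; ring
      have h5 := arith_D_le (by omega : 0 < g) hn hm hE' ht hspos
      have h6 : g * (q * ((slice q N S i).card * D)) + g * (s * m) ≤ g * (D * m) := by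
        calc g * (q * ((slice q N S i).card * D)) + g * (s * m)
            ≤ g * (q * (L * N)) + g * (s * m) := by
              have := Nat.mul_le_mul_left g (Nat.mul_le_mul_left q hk)
              omega
          _ ≤ g * (q * (t * N)) + g * (s * m) := by
              have := Nat.mul_le_mul_left g (Nat.mul_le_mul_left q (Nat.mul_le_mul_right N h4))
              omega
          _ = g * (t * (q * N)) + g * (s * m) := by ring
          _ = g * ((s + g * t) * m) := by rw [hm]; ring
          _ = g * (D * m) := by rw [← ht]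
      have h7 : q * ((slice q N S i).card * D) + s * m ≤ D * m := by
        have h8 : g * (q * ((slice q N S i).card * D) + s * m) ≤ g * (D * m) := by
          rw [mul_add]; exact h6
        exact Nat.le_of_mul_le_mul_left h8 (by omega)
      have h9 : D * (q * (slice q N S i).card + 1) ≤ D * m := by
        calc D * (q * (slice q N S i).card + 1) = q * ((slice q N S i).card * D) + D := by ring
          _ ≤ q * ((slice q N S i).card * D) + s * m := by omega
          _ ≤ D * m := h7
      exact Nat.le_of_mul_le_mul_left h9 hDpos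
    have h1 : q * S.card ≤ q * (m - 1) := by
      calc q * S.card ≤ q * ∑ i ∈ Finset.range q, (slice q N S i).card :=
            Nat.mul_le_mul_left _ hsum
        _ = ∑ i ∈ Finset.range q, q * (slice q N S i).card := by rw [Finset.mul_sum]
        _ ≤ ∑ _i ∈ Finset.range q, (m - 1) := by
            apply Finset.sum_le_sum
            intro i _
            have := hbound i
            omega
        _ = q * (m - 1) := by rw [Finset.sum_const, Finset.card_range, smul_eq_mul]
    have h2 := Nat.le_of_mul_le_mul_left h1 hqp.pos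
    calc g * (S.card + 1) ≤ g * m := Nat.mul_le_mul_left _ (by omega)
      _ = q * N := hm.symm


/-- The stabilizer as a subgroup. -/
def stabSub {G : Type*} [AddCommGroup G] [DecidableEq G] {T : Finset G} (hT : T.Nonempty) :
    AddSubgroup G where
  carrier := {g | g ∈ stab T}
  zero_mem' := zero_mem_stab hT
  add_mem' := fun ha hb => add_mem_stab hT ha hb
  neg_mem' := fun ha => neg_mem_stab hT ha

lemma exists_prime_step {n : ℕ} (hn : 0 < n) {T : Finset (ZMod n)} (hT : T.Nonempty)
    {x : ZMod n} (hx : x ∈ stab T) (hx0 : x ≠ 0) :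
    ∃ p N : ℕ, p.Prime ∧ n = p * N ∧ ((N : ℕ) : ZMod n) ∈ stab T := by
  have : NeZero n := ⟨by omega⟩
  have hv0 : x.val ≠ 0 := by
    intro h
    apply hx0
    exact (ZMod.val_eq_zero x).1 h
  have hvn : x.val < n := ZMod.val_lt x
  set d := Nat.gcd x.val n with hd
  have hdv : d ≤ x.val := Nat.gcd_le_left _ (by omega)
  obtain ⟨w, hw⟩ : d ∣ n := Nat.gcd_dvd_right _ _
  have hw1 : w ≠ 1 := by
    intro h
    rw [h] at hw
    omega
  have hwp := Nat.minFac_prime hw1
  obtain ⟨w', hw'⟩ := Nat.minFac_dvd w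
  refine ⟨w.minFac, d * w', hwp, ?_, ?_⟩
  · calc n = d * w := hw
      _ = d * (w.minFac * w') := by rw [← hw']
      _ = w.minFac * (d * w') := by ring
  · have h1 : ((d : ℕ) : ZMod n) = (Nat.gcdA x.val n) • x := by
      have h2 := Nat.gcd_eq_gcd_ab x.val n
      have h3 : (((Nat.gcd x.val n : ℕ) : ℤ) : ZMod n) =
          (((x.val : ℤ) * Nat.gcdA x.val n + (n : ℤ) * Nat.gcdB x.val n : ℤ) : ZMod n) := by
        rw [h2]
      push_cast at h3
      rw [ZMod.natCast_self, zero_mul, add_zero, ZMod.natCast_zmod_val] at h3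
      rw [hd, h3, zsmul_eq_mul, mul_comm]
    have h4 : ((d * w' : ℕ) : ZMod n) = ((w' : ℤ) * Nat.gcdA x.val n) • x := by
      rw [mul_smul, ← h1]
      push_cast
      rw [zsmul_eq_mul]
      push_cast
      ring
    rw [h4]
    exact (stabSub hT).zsmul_mem (show x ∈ stabSub hT from hx) _

lemma step_aperiodic {n : ℕ} (hn : 0 < n) (ih : ∀ N, 0 < N → N < n → P N) (h : ℕ) (c : ℤ)
    (A : Finset (ZMod n)) (h1 : 1 ≤ h) (hA : A.Nonempty) (hc : (c : ZMod n) ∉ hs A h)
    (hst : ∀ g ∈ stab (hs A h), g = 0) : Good n h c A.card := by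
  have : NeZero n := ⟨by omega⟩
  have hApos := Finset.card_pos.2 hA
  have hcard := card_hs hA hst h le_rfl
  have hlt : (hs A h).card < n := by
    have := Finset.card_lt_univ_of_notMem hc
    rwa [ZMod.card] at this
  set m := A.card with hm
  set γ := Int.gcd c (Nat.gcd n h) with hγ
  by_cases hcase : h * (m - 1) + 1 + γ ≤ n
  · exact ⟨n, m, dvd_rfl, hApos, hcase, le_rfl⟩
  push Not at hcase
  have hγg : γ ∣ Nat.gcd n h := by
    have := Int.gcd_dvd_right (a := c) (b := (Nat.gcd n h : ℤ))
    exact Int.natCast_dvd_natCast.1 this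
  have hγn : γ ∣ n := hγg.trans (Nat.gcd_dvd_left _ _)
  have hγh : γ ∣ h := hγg.trans (Nat.gcd_dvd_right _ _)
  have hnm : n = h * (m - 1) + γ := by
    have h2 : γ ∣ n - h * (m - 1) := Nat.dvd_sub hγn (hγh.trans (Dvd.intro _ rfl))
    have h3 : γ ≤ n - h * (m - 1) := Nat.le_of_dvd (by omega) h2
    omega
  have hγ2 : 2 ≤ γ := by omega
  have hgγ : Nat.gcd n h ∣ γ := by
    have h2 : Nat.gcd n h ∣ h * (m - 1) + γ := by rw [← hnm]; exact Nat.gcd_dvd_left _ _
    exact (Nat.dvd_add_right ((Nat.gcd_dvd_right _ _).trans (Dvd.intro _ rfl))).1 h2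
  have hgeq : Nat.gcd n h = γ := Nat.dvd_antisymm hgγ hγg
  have hgc : ((γ : ℕ) : ℤ) ∣ c := Int.gcd_dvd_left (a := c) (b := (Nat.gcd n h : ℤ))
  -- suppose not good
  by_contra hG
  have hnot : ∀ D L : ℕ, D ∣ n → 1 ≤ L → h * (L - 1) + 1 + Nat.gcd D h ≤ D → L * n < m * D := by
    intro D L hD hL hDL
    by_contra hle
    push Not at hle
    apply hG
    refine ⟨D, L, hD, hL, ?_, hle⟩
    have h2 : Int.gcd c (Nat.gcd D h : ℤ) ≤ Nat.gcd D h := by
      apply Nat.le_of_dvd (Nat.gcd_pos_of_pos_left _ (Nat.pos_of_dvd_of_pos hD hn))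
      have := Int.gcd_dvd_right (a := c) (b := (Nat.gcd D h : ℤ))
      exact Int.natCast_dvd_natCast.1 this
    omega
  -- every divisor `D` of `n` is `≡ gcd(D,h) (mod h)`
  have hstar : ∀ D, D ∣ n → ∃ t, D = Nat.gcd D h + h * t := by
    intro D hD
    have hDpos : 0 < D := Nat.pos_of_dvd_of_pos hD hn
    by_cases hs0 : D % h = 0
    · have hhD : h ∣ D := Nat.dvd_of_mod_eq_zero hs0
      obtain ⟨t, ht⟩ := hhD
      have hgcd : Nat.gcd D h = h := Nat.gcd_eq_right (Dvd.intro t ht.symm)
      have htpos : 0 < t := by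
        rcases Nat.eq_zero_or_pos t with h' | h'
        · rw [h'] at ht; omega
        · exact h'
      refine ⟨t - 1, ?_⟩
      rw [hgcd]
      obtain ⟨t', rfl⟩ : ∃ t', t = t' + 1 := ⟨t - 1, by omega⟩
      rw [ht]
      simp
      ring
    · have hdm := Nat.div_add_mod D h
      have hgcd : Nat.gcd D h = Nat.gcd (D % h) h := by
        rw [Nat.gcd_comm D h, Nat.gcd_rec h D]
      have hle : Nat.gcd D h ≤ D % h := by
        rw [hgcd]; exact Nat.gcd_le_left _ (by omega)
      rcases eq_or_lt_of_le hle with heq | hlt'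
      · exact ⟨D / h, by omega⟩
      · exfalso
        have h2 := hnot D (D / h + 1) hD (Nat.le_add_left 1 _) (by
          rw [Nat.add_sub_cancel]
          omega)
        obtain ⟨E, hE⟩ := hD
        have hEpos : 0 < E := by
          rcases Nat.eq_zero_or_pos E with h' | h'
          · rw [h'] at hE; omega
          · exact h'
        have h3 : (D / h + 1) * E < m := by
          have : D * ((D / h + 1) * E) < D * m := by
            calc D * ((D / h + 1) * E) = (D / h + 1) * (D * E) := by ring
              _ = (D / h + 1) * n := by rw [← hE]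
              _ < m * D := h2
              _ = D * m := by ring
          exact lt_of_mul_lt_mul_left this (Nat.zero_le _)
        have h4 : (h * (D / h + 1)) * E < D * E := by
          calc (h * (D / h + 1)) * E = h * ((D / h + 1) * E) := by ring
            _ ≤ h * (m - 1) := Nat.mul_le_mul_left _ (by omega)
            _ < n := by omega
            _ = D * E := hE
        have h5 : h * (D / h + 1) < D := lt_of_mul_lt_mul_right h4 (Nat.zero_le _)
        have h6 : D % h < h := Nat.mod_lt _ (by omega)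
        have h7 : h * (D / h + 1) = h * (D / h) + h := by ring
        omega
  -- the same with `g = γ`
  have hgcdg : ∀ D, D ∣ n → Nat.gcd D h = Nat.gcd D γ := by
    intro D hD
    rw [← hgeq]
    apply Nat.dvd_antisymm
    · exact Nat.dvd_gcd (Nat.gcd_dvd_left _ _)
        (Nat.dvd_gcd ((Nat.gcd_dvd_left _ _).trans hD) (Nat.gcd_dvd_right _ _))
    · exact Nat.dvd_gcd (Nat.gcd_dvd_left _ _)
        ((Nat.gcd_dvd_right _ _).trans (Nat.gcd_dvd_right _ _))
  obtain ⟨u, hu⟩ := hγh
  have hstarg : ∀ D, D ∣ n → ∃ t, D = Nat.gcd D γ + γ * t := by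
    intro D hD
    obtain ⟨t, ht⟩ := hstar D hD
    refine ⟨u * t, ?_⟩
    rw [← hgcdg D hD]
    conv_lhs => rw [ht]
    rw [← mul_assoc, ← hu]
  -- translation
  obtain ⟨c2, hc2⟩ := hgc
  have hbez := Nat.gcd_eq_gcd_ab n h
  set t : ℤ := c2 * Nat.gcdB n h with ht
  have hht : ((h : ℤ) * t : ZMod n) = (c : ZMod n) := by
    have h2 : (h : ℤ) * t = c - n * (c2 * Nat.gcdA n h) := by
      rw [hc2, ht, ← hgeq, hbez]; ring
    have h3 : (((h : ℤ) * t : ℤ) : ZMod n) = ((c - n * (c2 * Nat.gcdA n h) : ℤ) : ZMod n) := by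
      rw [h2]
    push_cast at h3
    rw [ZMod.natCast_self, zero_mul, sub_zero] at h3
    push_cast
    exact h3
  set S : Finset (ZMod n) := (-((u : ZMod n) * (t : ZMod n))) +ᵥ hs A u with hS
  have hhs : hs S γ = (-(c : ZMod n)) +ᵥ hs A h := by
    rw [hS, hs_vadd, hs_hs, mul_comm u γ, ← hu]
    congr 1
    rw [← hht, nsmul_eq_mul]
    conv_rhs => rw [hu]
    push_cast
    ring
  have h0S : (0 : ZMod n) ∉ hs S γ := by
    rw [hhs, Finset.mem_vadd_finset]
    rintro ⟨y, hy, hy0⟩
    apply hc
    rw [vadd_eq_add, neg_add_eq_zero] at hy0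
    rw [hy0]; exact hy
  have hQ := claimQ hn hγ2 hγn hstarg ih S h0S
  have hSc : u * (m - 1) + 1 ≤ S.card := by
    rw [hS, Finset.card_vadd_finset]
    apply card_hs hA hst
    rw [hu]
    exact Nat.le_mul_of_pos_left u (by omega)
  have h8 : γ * (u * (m - 1) + 1 + 1) ≤ n := by
    calc γ * (u * (m - 1) + 1 + 1) ≤ γ * (S.card + 1) := Nat.mul_le_mul_left _ (by omega)
      _ ≤ n := hQ
  have h9 : γ * (u * (m - 1) + 1 + 1) = h * (m - 1) + γ + γ := by
    rw [hu]; ring
  omega

/-- The general upper bound. -/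
theorem P_all (n : ℕ) (hn : 0 < n) : P n := by
  induction n using Nat.strong_induction_on with
  | _ n ih =>
    intro h c A h1 hA hc
    by_cases hst : ∀ g ∈ stab (hs A h), g = 0
    · exact step_aperiodic hn (fun N hN hNn => ih N hNn hN) h c A h1 hA hc hst
    · push Not at hst
      obtain ⟨x, hx, hx0⟩ := hst
      obtain ⟨p, N, hp, hpN, hN⟩ := exists_prime_step hn (hs_nonempty hA h) hx hx0
      have hNpos : 0 < N := by
        rcases Nat.eq_zero_or_pos N with h' | h'
        · rw [h'] at hpN; omega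
        · exact h'
      have hNlt : N < n := by
        rw [hpN]
        have := hp.two_le
        nlinarith
      have hPN := ih N hNlt hNpos
      subst hpN
      exact step_quot hp.pos hNpos hPN h c A h1 hA hc hN


/-- The lower bound construction. -/
lemma lower {n h D L : ℕ} (hn : 0 < n) (hh : 1 ≤ h) (hD : D ∣ n) (hL : 1 ≤ L)
    (hDL : h * (L - 1) + 1 + Nat.gcd D h ≤ D) :
    ∃ A : Finset (ZMod n), A.card = L * (n / D) ∧
      ∀ a : Fin h → ZMod n, (∀ i, a i ∈ A) → ∑ i, a i ≠ 0 := by
  have : NeZero n := ⟨by omega⟩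
  have hDpos : 0 < D := Nat.pos_of_dvd_of_pos hD hn
  have hbez := Nat.gcd_eq_gcd_ab D h
  set x0 : ℤ := Nat.gcdB D h with hx0
  have hLD : L ≤ D := by
    have h1 : 1 * (L - 1) ≤ h * (L - 1) := Nat.mul_le_mul_right _ hh
    omega
  set F : ℕ × ℕ → ZMod n := fun p => ((x0 + p.1 + D * p.2 : ℤ) : ZMod n) with hF
  refine ⟨((Finset.range L) ×ˢ (Finset.range (n / D))).image F, ?_, ?_⟩
  · rw [Finset.card_image_of_injOn, Finset.card_product, Finset.card_range, Finset.card_range]
    rintro ⟨j, k⟩ h1 ⟨j', k'⟩ h2 h3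
    rw [Finset.mem_coe, Finset.mem_product, Finset.mem_range, Finset.mem_range] at h1 h2
    obtain ⟨hj, hk⟩ := h1
    obtain ⟨hj', hk'⟩ := h2
    simp only at hj hk hj' hk'
    have h4 : ((x0 + j + D * k : ℤ) : ZMod n) = ((x0 + j' + D * k' : ℤ) : ZMod n) := h3
    rw [ZMod.intCast_eq_intCast_iff_dvd_sub] at h4
    obtain ⟨E, hE⟩ := hD
    have hnD : n / D = E := by rw [hE]; exact Nat.mul_div_cancel_left _ hDpos
    rw [hnD] at hk hk'
    have h5 : (D : ℤ) ∣ (x0 + j' + D * k') - (x0 + j + D * k) :=
      dvd_trans (by rw [hE]; push_cast; exact Dvd.intro _ rfl) h4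
    have h6 : (D : ℤ) ∣ (j' : ℤ) - j := by
      have : ((j' : ℤ) - j) = ((x0 + j' + D * k') - (x0 + j + D * k)) - D * ((k' : ℤ) - k) := by
        ring
      rw [this]
      exact dvd_sub h5 (Dvd.intro _ rfl)
    have h7 : (j' : ℤ) - j = 0 := by
      apply Int.eq_zero_of_abs_lt_dvd h6
      rw [abs_lt]
      constructor <;> omega
    have hjj : j = j' := by omega
    subst hjj
    have h8 : ((D : ℤ) * E) ∣ D * ((k' : ℤ) - k) := by
      have e1 : ((x0 + j + D * k' : ℤ)) - (x0 + j + D * k) = D * ((k' : ℤ) - k) := by ring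
      rw [e1, hE] at h4
      push_cast at h4
      exact h4
    have h9 : (E : ℤ) ∣ ((k' : ℤ) - k) :=
      Int.dvd_of_mul_dvd_mul_left (by positivity) h8
    have h10 : (k' : ℤ) - k = 0 := by
      apply Int.eq_zero_of_abs_lt_dvd h9
      rw [abs_lt]
      constructor <;> omega
    have hkk : k = k' := by omega
    rw [hkk]
  · intro a ha hsum
    have h1 : ∀ i, ∃ j k : ℕ, j ≤ L - 1 ∧ a i = ((x0 + j + D * k : ℤ) : ZMod n) := by
      intro i
      have := ha i
      rw [Finset.mem_image] at this
      obtain ⟨⟨j, k⟩, hjk, he⟩ := this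
      rw [Finset.mem_product, Finset.mem_range, Finset.mem_range] at hjk
      exact ⟨j, k, by have := hjk.1; omega, he.symm⟩
    choose j k hj he using h1
    have h2 : ((h * x0 + ∑ i, (j i : ℤ) + D * ∑ i, (k i : ℤ) : ℤ) : ZMod n) = 0 := by
      rw [← hsum]
      simp_rw [he]
      push_cast
      rw [Finset.sum_add_distrib, Finset.sum_add_distrib, Finset.mul_sum]
      simp
    rw [ZMod.intCast_zmod_eq_zero_iff_dvd] at h2
    have h3 : (D : ℤ) ∣ h * x0 + ∑ i, (j i : ℤ) + D * ∑ i, (k i : ℤ) :=
      dvd_trans (Int.natCast_dvd_natCast.2 hD) h2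
    have h4 : (D : ℤ) ∣ (Nat.gcd D h : ℤ) + ∑ i, (j i : ℤ) := by
      have : (Nat.gcd D h : ℤ) + ∑ i, (j i : ℤ) =
        (h * x0 + ∑ i, (j i : ℤ) + D * ∑ i, (k i : ℤ)) +
          D * (Nat.gcdA D h - ∑ i, (k i : ℤ)) := by
        rw [hbez]; ring
      rw [this]
      exact dvd_add h3 (Dvd.intro _ rfl)
    have h5 : ∑ i, (j i : ℤ) ≤ h * (L - 1 : ℕ) := by
      calc ∑ i, (j i : ℤ) ≤ ∑ _i : Fin h, ((L - 1 : ℕ) : ℤ) := by
            apply Finset.sum_le_sum
            intro i _
            exact_mod_cast hj i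
        _ = h * (L - 1 : ℕ) := by simp
    have h6 : 0 ≤ ∑ i, (j i : ℤ) := Finset.sum_nonneg (fun i _ => by positivity)
    have h7 : 0 < Nat.gcd D h := Nat.gcd_pos_of_pos_left _ hDpos
    have h8 : (D : ℤ) ≤ (Nat.gcd D h : ℤ) + ∑ i, (j i : ℤ) :=
      Int.le_of_dvd (by omega) h4
    have h9 : ((h * (L - 1) + 1 + Nat.gcd D h : ℕ) : ℤ) ≤ D := by exact_mod_cast hDL
    push_cast at h9
    omega

end Pool.Agent.Lib.MP_7a9645_co
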